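import Pool.Agent.Run7.h827.MT.Rees
import Pool.Agent.Run7.h827.HM.Gen

set_option autoImplicit false
set_option linter.unusedSectionVars false
set_option linter.unusedVariables false

/-! # Forms over products of ideals of minors of products of generic matrices -/

namespace Pool.Agent.Run7.h827.MT

open Pool.Agent.W574.SM Pool.Agent.Y231.RF Pool.Agent.Y228.RR Pool.Agent.TH192.DT
  Pool.Agent.H628R4.TP Pool.Agent.W574.LM Pool.Agent.R779.HK Pool.Agent.R852.BM
  Pool.Agent.Run7.h827.HM Pool.Agent.Run7.h827.NE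

variable {T : Type} [Fintype T] [DecidableEq T] (G : MTree)

/-- `p ≤ q`, `p = (v, i)`, `q = (w, j)`: `v` is `w` or an ancestor of `w`, and `i ≤ j`. The ideal of `q`
vanishes on the divisor `E_p`. -/
def MTree.Le (p q : G.Cell) : Prop := G.Anc p.1 q.1 ∧ (p.2 : ℕ) ≤ q.2

open Classical in
/-- `1` if `p ≤ q`, and `0` otherwise -/
noncomputable def MTree.le01 (p q : G.Cell) : ℕ := if G.Le p q then 1 else 0

/-- The generators of the product of the powers `I_q ^ e q`: the products of minors, `e q` of them of the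
first `i + 1` rows of `P_v`, `q = (v, i)`, for each `q`. -/
noncomputable def MTree.prod (e : G.Cell → ℕ) :
    ((x : Σ q : G.Cell, Fin (e q)) → G.MI x.1) → MvPolynomial G.Var ℂ :=
  mixFam G.gen e

/-- The numbers `ν = n_v - i` of the divisors `E_p`, `p = (v, i)`, and `ν = 1` for the strict
transforms. -/
def MTree.nu (T : Type) : G.Cell ⊕ T → ℕ :=
  Sum.elim (fun p => G.n p.1 - 1 - p.2 + 1) fun _ => 1

/-- The multiplicities of `∏ t, F_t ^ a t`, `F_t` the form over `∏ q, I_q ^ e t q`: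
`∑ t, a t * ∑ q, e t q`, the second sum over the `q ≥ p`, along `E_p`, and `a t` along the strict
transform of `F_t = 0`. -/
noncomputable def MTree.mul (e : T → G.Cell → ℕ) (a : T → ℕ) : G.Cell ⊕ T → ℕ :=
  Sum.elim (fun p => ∑ t, a t * ∑ q, e t q * G.le01 p q) a

/-- The vectors of multiplicities of the tuple `(F_t)`. -/
noncomputable def MTree.vec (e : T → G.Cell → ℕ) : G.Cell ⊕ T → T → ℕ :=
  mulT fun (p : G.Cell) t => ∑ q, e t q * G.le01 p q

theorem nu_pos (x : G.Cell ⊕ T) : 0 < G.nu T x := nuG_pos _ x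

theorem le01_eq (p : G.Cell) : G.le01 p = mulE G p := by
  funext q
  by_cases h : G.Anc p.1 q.1 ∧ (p.2 : ℕ) ≤ q.2
  · rw [mulE_pos G h, MTree.le01, if_pos (show G.Le p q from h)]
  · rw [mulE_neg G h, MTree.le01, if_neg (show ¬ G.Le p q from h)]

theorem le_of_ne {p q : G.Cell} (h : G.le01 p q ≠ 0) : G.Le p q := by
  by_contra h'
  rw [MTree.le01, if_neg h'] at h
  exact h rfl

theorem gen_ne (q : G.Cell) : ∃ j, G.gen q j ≠ 0 := by
  obtain ⟨E, -, -, -, -, -⟩ := chart_exists G q 1 one_ne_zero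
  refine ⟨E.j0 q, fun h => ?_⟩
  obtain ⟨U, hU, h1⟩ := E.attained q
  rw [h, map_zero] at h1
  have h2 : U = 0 := by
    rcases mul_eq_zero.1 h1.symm with h3 | h3
    · exact absurd h3 (pow_ne_zero _ (X_ne0 _))
    · exact h3
  rw [h2, map_zero] at hU
  exact hU rfl

/-- the charts at the general points of the divisors -/
theorem hasChart (p : G.Cell) (A : G.Cell → Prop) (hp : A p) :
    HasChart G.gen (G.n p.1 - 1 - p.2) (G.le01 p) A := by
  intro H hH
  obtain ⟨lam, hl, hlH⟩ := exists_mul (bs G p.1 p.2 1) H hH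
  obtain ⟨E, hk, hm, hR, hcc, P, U, hU, hP⟩ := chart_exists G p lam hl
  refine ⟨E, hk, ?_, isRees_mono (fun s hs => by rw [hs]; exact hp) hR, ?_, P, U, hU, hP⟩
  · rw [hm, le01_eq]
  · rw [Pool.Agent.TH192.DT.cc_aeval]
    simp only [hcc]
    have h1 : (fun k : G.Var => bs G p.1 p.2 lam k)
        = fun k => lam * bs G p.1 p.2 1 k := by
      funext k
      unfold bs
      split_ifs
      · rw [mul_one]
      · rw [mul_zero]
    rw [h1]
    exact hlH

/-- The set of the cells `q` whose ideals `I_q` occur in `f` (`a t ≠ 0` and `e t q ≠ 0` for some `t`) is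
closed downwards: it contains with `q` all the cells `p ≤ q`. -/
def MTree.Down (e : T → G.Cell → ℕ) (a : T → ℕ) : Prop :=
  ∀ p q : G.Cell, G.Le p q → (∃ t, a t ≠ 0 ∧ e t q ≠ 0) → ∃ t, a t ≠ 0 ∧ e t p ≠ 0

theorem charts (e : T → G.Cell → ℕ) (a : T → ℕ) (hd : G.Down e a) (p : G.Cell)
    (hpos : 0 < mulG G.le01 e a (Sum.inl p)) :
    HasChart G.gen (G.n p.1 - 1 - p.2) (G.le01 p) (Occ e a) := by
  obtain ⟨t, -, ht⟩ := Finset.exists_ne_zero_of_sum_ne_zero
    (show (∑ t, a t * ∑ q, e t q * G.le01 p q) ≠ 0 from hpos.ne')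
  obtain ⟨q, -, hq⟩ := Finset.exists_ne_zero_of_sum_ne_zero (right_ne_zero_of_mul ht)
  exact hasChart G p _ (hd p q (le_of_ne G (right_ne_zero_of_mul hq))
    ⟨t, left_ne_zero_of_mul ht, left_ne_zero_of_mul hq⟩)

/-- **The roots.** -/
theorem roots (e : T → G.Cell → ℕ) (a : T → ℕ) (hd : G.Down e a)
    (b : Polynomial ℂ) (hb : IsBFunction (powProd a fun t => G.prod (e t)) b ∨
      IsLocalBFunction (powProd a fun t => G.prod (e t)) b)
    (x : G.Cell ⊕ T) (l : ℕ) (hl : l < G.mul e a x) :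
    b.eval (-((G.nu T x : ℂ) + l) / G.mul e a x) = 0 :=
  gen_roots G.gen (gen_ne G) _ _ e a (charts G e a hd) b hb x l hl

theorem root_set (e : T → G.Cell → ℕ) (a : T → ℕ) (hd : G.Down e a) :
    ∃ 𝒮 : Finset (ℤ × ℤ), (∀ (R : Type) [CommRing R] (u : Rˣ)
        (χ : Finset {x // 0 < G.mul e a x} → R),
        dlZ u (G.nu T) (G.mul e a) χ ∈ ratU u (𝒮 : Set (ℤ × ℤ))) ∧
      ∀ q ∈ 𝒮, q.1 < 0 ∧ 0 < q.2 ∧ ∀ b : Polynomial ℂ,
        (IsBFunction (powProd a fun t => G.prod (e t)) b ∨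
          IsLocalBFunction (powProd a fun t => G.prod (e t)) b) →
        b.eval ((q.1 : ℂ) / q.2) = 0 :=
  gen_set G.gen (gen_ne G) _ _ e a (charts G e a hd)

theorem mot (e : T → G.Cell → ℕ) (a : T → ℕ) (hd : G.Down e a)
    (R : Type) [CommRing R] (u : Rˣ) (χ : Finset {x // 0 < G.mul e a x} → R)
    (b : Polynomial ℂ) (hb : IsBFunction (powProd a fun t => G.prod (e t)) b ∨
      IsLocalBFunction (powProd a fun t => G.prod (e t)) b) :
    dlZ u (G.nu T) (G.mul e a) χ ∈ ratU u (RootPairs b) :=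
  gen_mot G.gen (gen_ne G) _ _ e a (charts G e a hd) R u χ b hb

theorem tuple (e : T → G.Cell → ℕ)
    (hd : ∀ p q : G.Cell, G.Le p q → (∃ t, e t q ≠ 0) → ∃ t, e t p ≠ 0)
    (χ : Finset (G.Cell ⊕ T) → ℤ) (z : T → ℂ)
    (hz : z ∈ PolarLocus (topM (G.nu T) (G.vec e) χ)) :
    ∃ x, ∑ t, (G.vec e x t : ℂ) * z t + (G.nu T x : ℂ) = 0 ∧
      ∀ k : T → ℕ, (∀ t, 0 < k t) → 0 < ∑ t, k t * G.vec e x t ∧
        ∀ b : Polynomial ℂ, IsBFunction (powProd k fun t => G.prod (e t)) b →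
          ∀ l : ℕ, l < ∑ t, k t * G.vec e x t →
            b.eval (-((G.nu T x : ℂ) + l) / (∑ t, k t * G.vec e x t : ℕ)) = 0 := by
  refine gen_tuple G.gen (gen_ne G) _ _ e (fun p hp => ?_) χ z hz
  obtain ⟨t, q, hq⟩ := hp
  exact hasChart G p _ (hd p q (le_of_ne G (right_ne_zero_of_mul hq))
    ⟨t, left_ne_zero_of_mul hq⟩)

/-- the numbers of the components of the principalization of `∏ q, I_q ^ e q` -/
def MTree.nuJ (p : G.Cell) : ℕ := G.n p.1 - 1 - p.2 + 1

/-- the multiplicities of `∏ q, I_q ^ e q` -/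
noncomputable def MTree.mulJ (e : G.Cell → ℕ) (p : G.Cell) : ℕ := ∑ q, e q * G.le01 p q

theorem one_roots (e : G.Cell → ℕ)
    (hd : ∀ p q : G.Cell, G.Le p q → e q ≠ 0 → e p ≠ 0) (b : Polynomial ℂ)
    (H : MvPolynomial G.Var ℂ) (hH : MvPolynomial.constantCoeff H ≠ 0)
    (hb : Pool.Agent.W574.LM.IsLocEq H (G.prod e) b)
    (p : G.Cell) (l : ℕ) (hl : l < G.mulJ e p) :
    b.eval (-((G.nuJ p : ℂ) + l) / G.mulJ e p) = 0 := by
  obtain ⟨q, -, hq⟩ := Finset.exists_ne_zero_of_sum_ne_zero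
    (show (∑ q, e q * G.le01 p q) ≠ 0 from Nat.ne_zero_of_lt hl)
  exact gen_one_roots G.gen _ _ e
    (hasChart G p _ (hd p q (le_of_ne G (right_ne_zero_of_mul hq)) (left_ne_zero_of_mul hq)))
    b H hH hb l hl

end Pool.Agent.Run7.h827.MT
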