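import Pool.Agent.Run7.h827.NE.Base

set_option autoImplicit false
set_option linter.unusedSectionVars false
set_option linter.unusedVariables false

/-! # Products of generic matrices along rooted forests -/

namespace Pool.Agent.Run7.h827.MT

open MvPowerSeries Pool.Agent.W574.SM Pool.Agent.Y231.RF Pool.Agent.R779.HK

/-- A rooted forest with the vertices `0, …, K - 1`; `par v` is the parent of `v` (`none` if `v` is a
root), and `par v < v`. The vertex `v` has a generic matrix `X_v` with `n v` columns, and with `m` rows if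
`v` is a root and `n (par v)` rows otherwise. -/
structure MTree where
  /-- the number of the vertices -/
  K : ℕ
  /-- the number of the rows of the matrices of the roots -/
  m : ℕ
  /-- the parents -/
  par : Fin K → Option (Fin K)
  lt : ∀ v u, par v = some u → u < v
  /-- the numbers of the columns -/
  n : Fin K → ℕ
  le : ∀ v, m ≤ n v

variable (G : MTree)

/-- the number of the rows of the matrix `X_v` -/
def MTree.rows (v : Fin G.K) : ℕ := match G.par v with
  | none => G.m
  | some u => G.n u

/-- the entries of the matrices `X_v` -/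
abbrev MTree.Var : Type := Σ v : Fin G.K, Fin (G.rows v) × Fin (G.n v)

/-- the entries of the matrices `X_v` with the values `x` -/
def MTree.ent {R : Type} [CommRing R] (x : G.Var → R) (v : Fin G.K) (i j : ℕ) : R :=
  if h : i < G.rows v ∧ j < G.n v then x ⟨v, ⟨i, h.1⟩, ⟨j, h.2⟩⟩ else 0

/-- The entries of the matrix `P_v`: `P_v = X_v` for the roots, and `P_v = P_u X_v` if `u` is the parent
of `v`. -/
def MTree.pm {R : Type} [CommRing R] (x : G.Var → R) (v : Fin G.K) : ℕ → ℕ → R := fun i j =>
  match h : G.par v with
  | none => G.ent x v i j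
  | some u => ∑ k ∈ Finset.range (G.n u), MTree.pm x u i k * G.ent x v k j
termination_by v
decreasing_by exact G.lt v u h

/-- the matrix by which `X_v` is multiplied: the identity for the roots, and `P_u` if `u` is the
parent of `v` -/
def MTree.qm {R : Type} [CommRing R] (x : G.Var → R) (v : Fin G.K) (i k : ℕ) : R :=
  match G.par v with
  | none => if i = k then 1 else 0
  | some u => G.pm x u i k

theorem MTree.m_le_rows (v : Fin G.K) : G.m ≤ G.rows v := by
  unfold MTree.rows
  cases G.par v with
  | none => exact le_rfl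
  | some u => exact G.le u

theorem MTree.pm_eq {R : Type} [CommRing R] (x : G.Var → R) (v : Fin G.K) (i j : ℕ)
    (hi : i < G.m) :
    G.pm x v i j = ∑ k ∈ Finset.range (G.rows v), G.qm x v i k * G.ent x v k j := by
  rw [MTree.pm]
  unfold MTree.rows MTree.qm
  split
  · rename_i h
    rw [h]
    simp only [ite_mul, one_mul, zero_mul]
    rw [Finset.sum_ite_eq, if_pos (Finset.mem_range.2 hi)]
  · rename_i u h
    rw [h]

theorem MTree.map_ent {R S : Type} [CommRing R] [CommRing S] (φ : R →+* S) (x : G.Var → R)
    (v : Fin G.K) (i j : ℕ) : φ (G.ent x v i j) = G.ent (fun k => φ (x k)) v i j := by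
  unfold MTree.ent
  split_ifs
  · rfl
  · exact map_zero φ

theorem MTree.map_pm {R S : Type} [CommRing R] [CommRing S] (φ : R →+* S) (x : G.Var → R)
    (v : Fin G.K) (i j : ℕ) : φ (G.pm x v i j) = G.pm (fun k => φ (x k)) v i j := by
  induction v using WellFoundedLT.induction generalizing i j with
  | ind v ih =>
    rw [MTree.pm, MTree.pm]
    split
    · rename_i h
      exact G.map_ent φ x v i j
    · rename_i u h
      rw [map_sum]
      refine Finset.sum_congr rfl fun k _ => ?_
      rw [map_mul, ih u (G.lt v u h), G.map_ent]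

theorem MTree.map_qm {R S : Type} [CommRing R] [CommRing S] (φ : R →+* S) (x : G.Var → R)
    (v : Fin G.K) (i j : ℕ) : φ (G.qm x v i j) = G.qm (fun k => φ (x k)) v i j := by
  unfold MTree.qm
  split
  · split_ifs
    · exact map_one φ
    · exact map_zero φ
  · exact G.map_pm φ x _ i j

theorem MTree.pm_congr {R : Type} [CommRing R] (x y : G.Var → R)
    (v : Fin G.K) (h : ∀ k : G.Var, k.1 ≤ v → x k = y k) (i j : ℕ) :
    G.pm x v i j = G.pm y v i j := by
  induction v using WellFoundedLT.induction generalizing i j with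
  | ind v ih =>
    have he : ∀ i j, G.ent x v i j = G.ent y v i j := by
      intro i j
      unfold MTree.ent
      split_ifs
      · exact h _ le_rfl
      · rfl
    rw [MTree.pm, MTree.pm]
    split
    · exact he i j
    · rename_i u hu
      refine Finset.sum_congr rfl fun k _ => ?_
      rw [ih u (G.lt v u hu) (fun k hk => h k (hk.trans (G.lt v u hu).le)), he]

theorem MTree.qm_congr {R : Type} [CommRing R] (x y : G.Var → R)
    (v : Fin G.K) (h : ∀ k : G.Var, k.1 < v → x k = y k) (i j : ℕ) :
    G.qm x v i j = G.qm y v i j := by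
  unfold MTree.qm
  split
  · rfl
  · rename_i u hu
    exact G.pm_congr x y u (fun k hk => h k (hk.trans_lt (G.lt v u hu))) i j

variable {τ : Type} [Fintype τ] [DecidableEq τ]

theorem MTree.der_pm (t : τ) (x : G.Var → MvPowerSeries τ ℂ) (v : Fin G.K)
    (h : ∀ k : G.Var, k.1 ≤ v → pderiv ℂ t (x k) = 0) (i j : ℕ) :
    pderiv ℂ t (G.pm x v i j) = 0 := by
  induction v using WellFoundedLT.induction generalizing i j with
  | ind v ih =>
    have he : ∀ i j, pderiv ℂ t (G.ent x v i j) = 0 := by
      intro i j
      unfold MTree.ent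
      split_ifs
      · exact h _ le_rfl
      · exact map_zero _
    rw [MTree.pm]
    split
    · exact he i j
    · rename_i u hu
      rw [map_sum]
      refine Finset.sum_eq_zero fun k _ => ?_
      rw [Derivation.leibniz, he, smul_zero, zero_add, smul_eq_mul,
        ih u (G.lt v u hu) (fun k hk => h k (hk.trans (G.lt v u hu).le)), mul_zero]

theorem MTree.der_qm (t : τ) (x : G.Var → MvPowerSeries τ ℂ) (v : Fin G.K)
    (h : ∀ k : G.Var, k.1 < v → pderiv ℂ t (x k) = 0) (i j : ℕ) :
    pderiv ℂ t (G.qm x v i j) = 0 := by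
  unfold MTree.qm
  split
  · split_ifs
    · exact Derivation.map_one_eq_zero _
    · exact map_zero _
  · rename_i u hu
    exact G.der_pm t x u (fun k hk => h k (hk.trans_lt (G.lt v u hu))) i j

/-- `v` is `u` or an ancestor of `u` -/
def MTree.Anc (v u : Fin G.K) : Prop :=
  Relation.ReflTransGen (fun a b => G.par b = some a) v u

theorem MTree.anc_none {v u : Fin G.K} (h : G.par u = none) : G.Anc v u ↔ v = u := by
  constructor
  · intro hv
    rcases Relation.ReflTransGen.cases_tail hv with h1 | ⟨w, _, h2⟩
    · exact h1.symm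
    · rw [h] at h2
      exact absurd h2 (by simp)
  · rintro rfl
    exact Relation.ReflTransGen.refl

theorem MTree.anc_some {v u p : Fin G.K} (h : G.par u = some p) :
    G.Anc v u ↔ v = u ∨ G.Anc v p := by
  constructor
  · intro hv
    rcases Relation.ReflTransGen.cases_tail hv with h1 | ⟨w, h1, h2⟩
    · exact Or.inl h1.symm
    · rw [h] at h2
      rw [Option.some_injective _ h2]
      exact Or.inr h1
  · rintro (rfl | h1)
    · exact Relation.ReflTransGen.refl
    · exact Relation.ReflTransGen.tail h1 h

theorem MTree.anc_le {v u : Fin G.K} (h : G.Anc v u) : v ≤ u := by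
  induction h with
  | refl => exact le_rfl
  | tail _ h2 ih => exact ih.trans (G.lt _ _ h2).le

theorem MTree.anc_par_ne {v p : Fin G.K} (h : G.par v = some p) : ¬ G.Anc v p := fun h1 =>
  absurd (G.anc_le h1) (not_le.2 (G.lt v p h))

section Base

variable (v : Fin G.K) (s : ℕ) (lam : ℂ)

/-- the base point -/
noncomputable def bs (k : G.Var) : ℂ :=
  if (k.2.1 : ℕ) = k.2.2 ∧ (k.2.1 : ℕ) < G.m ∧ ¬ (k.1 = v ∧ (k.2.1 : ℕ) = s) then lam else 0

theorem ent_bs (u : Fin G.K) (i j : ℕ) (hi : i < G.rows u) (hj : j < G.n u) :
    G.ent (bs G v s lam) u i j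
      = if i = j ∧ i < G.m ∧ ¬ (u = v ∧ i = s) then lam else 0 := by
  rw [MTree.ent, dif_pos ⟨hi, hj⟩, bs]

/-- the matrices `P_u` at the base point -/
theorem pm_bs (hl : lam ≠ 0) (u : Fin G.K) : ∃ c : ℂ, c ≠ 0 ∧ ∀ i j, i < G.m → j < G.n u →
    (i = j ∧ ¬ (G.Anc v u ∧ i = s) → G.pm (bs G v s lam) u i j = c) ∧
    (¬ (i = j ∧ ¬ (G.Anc v u ∧ i = s)) → G.pm (bs G v s lam) u i j = 0) := by
  induction u using WellFoundedLT.induction with
  | ind u ih =>
    rcases hu : G.par u with _ | p
    · refine ⟨lam, hl, fun i j hi hj => ?_⟩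
      have h1 : G.pm (bs G v s lam) u i j = G.ent (bs G v s lam) u i j := by
        rw [MTree.pm]
        split
        · rfl
        · rename_i p' hp'
          rw [hu] at hp'
          exact absurd hp' (by simp)
      have hr : G.rows u = G.m := by
        unfold MTree.rows
        rw [hu]
      rw [h1, ent_bs G v s lam u i j (by omega) hj, G.anc_none hu]
      constructor
      · rintro ⟨h2, h3⟩
        rw [if_pos ⟨h2, hi, fun h4 => h3 ⟨h4.1.symm, h4.2⟩⟩]
      · intro h2
        rw [if_neg]
        rintro ⟨h3, _, h4⟩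
        exact h2 ⟨h3, fun h5 => h4 ⟨h5.1.symm, h5.2⟩⟩
    · obtain ⟨c, hc, hP⟩ := ih p (G.lt u p hu)
      refine ⟨c * lam, mul_ne_zero hc hl, fun i j hi hj => ?_⟩
      have h1 : G.pm (bs G v s lam) u i j
          = G.pm (bs G v s lam) p i i * G.ent (bs G v s lam) u i j := by
        rw [MTree.pm]
        split
        · rename_i hp'
          rw [hu] at hp'
          exact absurd hp' (by simp)
        · rename_i p' hp'
          have hpp : p' = p := by
            rw [hu] at hp'
            exact (Option.some_injective _ hp').symm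
          subst hpp
          refine Finset.sum_eq_single i ?_ ?_
          · intro k hk hki
            rw [(hP i k hi (Finset.mem_range.1 hk)).2 (fun h2 => hki h2.1.symm), zero_mul]
          · intro h2
            exact absurd (Finset.mem_range.2 (lt_of_lt_of_le hi (G.le p'))) h2
      have hr : G.rows u = G.n p := by
        unfold MTree.rows
        rw [hu]
      have hip : i < G.n p := lt_of_lt_of_le hi (G.le p)
      rw [h1, ent_bs G v s lam u i j (by omega) hj, G.anc_some hu]
      constructor
      · rintro ⟨h2, h3⟩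
        rw [if_pos ⟨h2, hi, fun h4 => h3 ⟨Or.inl h4.1.symm, h4.2⟩⟩,
          (hP i i hi hip).1 ⟨rfl, fun h4 => h3 ⟨Or.inr h4.1, h4.2⟩⟩]
      · intro h2
        by_cases h3 : i = j ∧ i < G.m ∧ ¬ (u = v ∧ i = s)
        · rw [(hP i i hi hip).2, zero_mul]
          rintro ⟨_, h4⟩
          apply h2
          refine ⟨h3.1, ?_⟩
          rintro ⟨h5 | h5, h6⟩
          · exact h3.2.2 ⟨h5.symm, h6⟩
          · exact h4 ⟨h5, h6⟩
        · rw [if_neg h3, mul_zero]

end Base

end Pool.Agent.Run7.h827.MT
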