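import Pool.Agent.Run7.h827.MT.Base

set_option autoImplicit false
set_option linter.unusedSectionVars false
set_option linter.unusedVariables false

/-! # Products of generic matrices along rooted forests: the charts -/

namespace Pool.Agent.Run7.h827.MT

open MvPowerSeries Pool.Agent.W574.SM Pool.Agent.Y231.RF Pool.Agent.Y228.RR Pool.Agent.R779.HK

variable (G : MTree)

theorem MTree.pm_some {R : Type} [CommRing R] (x : G.Var → R) {u p : Fin G.K}
    (hu : G.par u = some p) (i j : ℕ) :
    G.pm x u i j = ∑ k ∈ Finset.range (G.n p), G.pm x p i k * G.ent x u k j := by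
  rw [MTree.pm]
  split
  · rename_i hp'
    rw [hu] at hp'
    exact absurd hp' (by simp)
  · rename_i p' hp'
    have hpp : p' = p := by
      rw [hu] at hp'
      exact (Option.some_injective _ hp').symm
    subst hpp
    rfl

section Chart

variable (v : Fin G.K) (s : ℕ) (lam : ℂ)

theorem qm_bs (hl : lam ≠ 0) : ∃ c : ℂ, c ≠ 0 ∧ ∀ i k, i < G.m → k < G.rows v →
    G.qm (bs G v s lam) v i k = if i = k then c else 0 := by
  rcases hv : G.par v with _ | p
  · refine ⟨1, one_ne_zero, fun i k _ _ => ?_⟩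
    unfold MTree.qm
    rw [hv]
  · obtain ⟨c, hc, h⟩ := pm_bs G v s lam hl p
    refine ⟨c, hc, fun i k hi hk => ?_⟩
    have h1 : G.qm (bs G v s lam) v i k = G.pm (bs G v s lam) p i k := by
      unfold MTree.qm
      rw [hv]
    have hr : G.rows v = G.n p := by
      unfold MTree.rows
      rw [hv]
    rw [h1]
    by_cases hik : i = k
    · rw [if_pos hik]
      exact (h i k hi (by omega)).1 ⟨hik, fun h2 => G.anc_par_ne hv h2.1⟩
    · rw [if_neg hik]
      exact (h i k hi (by omega)).2 fun h2 => hik h2.1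

/-- the free coordinates -/
noncomputable def sx (k : G.Var) : MvPowerSeries G.Var ℂ := C (bs G v s lam k) + X k

theorem cc_sx (k : G.Var) : constantCoeff (sx G v s lam k) = bs G v s lam k := by
  rw [sx]
  simp

theorem der_sx (t k : G.Var) (h : t ≠ k) : pderiv ℂ t (sx G v s lam k) = 0 := by
  rw [sx, map_add, pderiv_C, zero_add, pderiv_X_of_ne (Ne.symm h)]

theorem cc_pm (x : G.Var → MvPowerSeries G.Var ℂ)
    (hx : ∀ k, constantCoeff (x k) = bs G v s lam k) (u : Fin G.K) (i j : ℕ) :
    constantCoeff (G.pm x u i j) = G.pm (bs G v s lam) u i j := by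
  rw [G.map_pm]
  congr 1
  funext k
  exact hx k

theorem cc_qm (x : G.Var → MvPowerSeries G.Var ℂ)
    (hx : ∀ k, constantCoeff (x k) = bs G v s lam k) (u : Fin G.K) (i j : ℕ) :
    constantCoeff (G.qm x u i j) = G.qm (bs G v s lam) u i j := by
  rw [G.map_qm]
  congr 1
  funext k
  exact hx k

/-- the upper left part of `P_v` -/
noncomputable def DM : Matrix (Fin s) (Fin s) (MvPowerSeries G.Var ℂ) :=
  Matrix.of fun i j => G.pm (sx G v s lam) v i j

theorem cc_det_DM (hs : s < G.m) (hl : lam ≠ 0) : constantCoeff (DM G v s lam).det ≠ 0 := by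
  obtain ⟨c, hc, h⟩ := pm_bs G v s lam hl v
  have hn := G.le v
  have h1 : (constantCoeff : MvPowerSeries G.Var ℂ →+* ℂ).mapMatrix (DM G v s lam)
      = Matrix.diagonal fun _ => c := by
    ext i j
    have hi := i.2
    have hj := j.2
    rw [RingHom.mapMatrix_apply, Matrix.map_apply, DM, Matrix.of_apply,
      cc_pm G v s lam _ (cc_sx G v s lam), Matrix.diagonal_apply]
    by_cases hij : i = j
    · subst hij
      rw [if_pos rfl]
      exact (h i i (by omega) (by omega)).1 ⟨rfl, fun h2 => by omega⟩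
    · rw [if_neg hij]
      exact (h i j (by omega) (by omega)).2 fun h2 => hij (Fin.ext h2.1)
  rw [RingHom.map_det, h1, Matrix.det_diagonal]
  exact Finset.prod_ne_zero_iff.2 fun _ _ => hc

theorem DM_unit (hs : s < G.m) (hl : lam ≠ 0) : IsUnit (DM G v s lam).det := by
  rw [MvPowerSeries.isUnit_iff_constantCoeff]
  exact isUnit_iff_ne_zero.2 (cc_det_DM G v s lam hs hl)

/-- the first entries of the row `s` of `P_v` -/
noncomputable def rhs : Fin s → MvPowerSeries G.Var ℂ := fun j => G.pm (sx G v s lam) v s j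

/-- the coefficients of the combination of the rows -/
noncomputable def qv : Fin s → MvPowerSeries G.Var ℂ :=
  Matrix.vecMul (rhs G v s lam) (DM G v s lam)⁻¹

theorem qv_DM (hs : s < G.m) (hl : lam ≠ 0) :
    Matrix.vecMul (qv G v s lam) (DM G v s lam) = rhs G v s lam := by
  rw [qv, Matrix.vecMul_vecMul, Matrix.nonsing_inv_mul _ (DM_unit G v s lam hs hl),
    Matrix.vecMul_one]

theorem cc_qv (hs : s < G.m) (hl : lam ≠ 0) (i : Fin s) :
    constantCoeff (qv G v s lam i) = 0 := by
  obtain ⟨c, hc, h⟩ := pm_bs G v s lam hl v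
  have hn := G.le v
  rw [qv, Matrix.vecMul, dotProduct, map_sum]
  refine Finset.sum_eq_zero fun j _ => ?_
  have hj := j.2
  rw [map_mul, rhs, cc_pm G v s lam _ (cc_sx G v s lam),
    (h s j hs (by omega)).2 (fun h2 => by omega), zero_mul]

/-- the special coordinates -/
def Sp (k : G.Var) : Prop := k.1 = v ∧ (k.2.1 : ℕ) = s ∧ s ≤ (k.2.2 : ℕ)

instance (k : G.Var) : Decidable (Sp G v s k) := by
  unfold Sp
  infer_instance

theorem der_qm_sx (t : G.Var) (ht : Sp G v s t) (i j : ℕ) :
    pderiv ℂ t (G.qm (sx G v s lam) v i j) = 0 := by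
  refine G.der_qm t _ v (fun k hk => der_sx G v s lam t k ?_) i j
  rintro rfl
  rw [ht.1] at hk
  exact lt_irrefl _ hk

theorem der_ent_sx (t : G.Var) (ht : Sp G v s t) (i j : ℕ) (h : i ≠ s ∨ j < s) :
    pderiv ℂ t (G.ent (sx G v s lam) v i j) = 0 := by
  unfold MTree.ent
  split_ifs with h1
  · refine der_sx G v s lam t _ ?_
    rintro rfl
    obtain ⟨_, h2, h3⟩ := ht
    change i = s at h2
    change s ≤ j at h3
    omega
  · exact map_zero _

theorem der_pm_sx (t : G.Var) (ht : Sp G v s t) (i j : ℕ) (hi : i < G.m) (hj : j < s) :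
    pderiv ℂ t (G.pm (sx G v s lam) v i j) = 0 := by
  rw [G.pm_eq _ v i j hi, map_sum]
  refine Finset.sum_eq_zero fun k _ => ?_
  rw [Derivation.leibniz, der_ent_sx G v s lam t ht k j (Or.inr hj), der_qm_sx G v s lam t ht,
    smul_zero, smul_zero, add_zero]

theorem der_qv (hs : s < G.m) (hl : lam ≠ 0) (t : G.Var) (ht : Sp G v s t) (i : Fin s) :
    pderiv ℂ t (qv G v s lam i) = 0 := by
  have h1 : Matrix.vecMul (fun i => pderiv ℂ t (qv G v s lam i)) (DM G v s lam) = 0 := by
    funext j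
    have hj := j.2
    have h2 := congrArg (pderiv ℂ t) (congrFun (qv_DM G v s lam hs hl) j)
    rw [rhs, der_pm_sx G v s lam t ht s j hs hj, Matrix.vecMul, dotProduct, map_sum] at h2
    rw [Matrix.vecMul, dotProduct, Pi.zero_apply, ← h2]
    refine Finset.sum_congr rfl fun i _ => ?_
    have hi := i.2
    rw [Derivation.leibniz, DM, Matrix.of_apply, der_pm_sx G v s lam t ht i j (by omega) hj,
      smul_zero, zero_add, smul_eq_mul, mul_comm]
  have h3 := congrArg (fun v' => Matrix.vecMul v' (DM G v s lam)⁻¹) h1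
  simp only [Matrix.vecMul_vecMul, Matrix.mul_nonsing_inv _ (DM_unit G v s lam hs hl),
    Matrix.vecMul_one, Matrix.zero_vecMul] at h3
  exact congrFun h3 i

/-- the coefficients of the entries of `X_v` in the equation -/
noncomputable def rho (l : ℕ) : MvPowerSeries G.Var ℂ :=
  G.qm (sx G v s lam) v s l - ∑ k : Fin s, qv G v s lam k * G.qm (sx G v s lam) v k l

theorem cc_rho (hs : s < G.m) (hl : lam ≠ 0) : ∃ c : ℂ, c ≠ 0 ∧ ∀ l, l < G.rows v →
    constantCoeff (rho G v s lam l) = if s = l then c else 0 := by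
  obtain ⟨c, hc, h⟩ := qm_bs G v s lam hl
  refine ⟨c, hc, fun l hlr => ?_⟩
  rw [rho, map_sub, map_sum, Finset.sum_eq_zero, sub_zero,
    cc_qm G v s lam _ (cc_sx G v s lam), h s l hs hlr]
  intro k _
  rw [map_mul, cc_qv G v s lam hs hl, zero_mul]

theorem cc_rho_s (hs : s < G.m) (hl : lam ≠ 0) : constantCoeff (rho G v s lam s) ≠ 0 := by
  obtain ⟨c, hc, h⟩ := cc_rho G v s lam hs hl
  rw [h s (lt_of_lt_of_le hs (G.m_le_rows v)), if_pos rfl]
  exact hc

theorem der_rho (hs : s < G.m) (hl : lam ≠ 0) (t : G.Var) (ht : Sp G v s t) (l : ℕ) :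
    pderiv ℂ t (rho G v s lam l) = 0 := by
  rw [rho, map_sub, der_qm_sx G v s lam t ht, map_sum, Finset.sum_eq_zero, sub_zero]
  intro k _
  rw [Derivation.leibniz, der_qm_sx G v s lam t ht, der_qv G v s lam hs hl t ht, smul_zero,
    smul_zero, add_zero]

theorem der_rho_inv (hs : s < G.m) (hl : lam ≠ 0) (t : G.Var) (ht : Sp G v s t) :
    pderiv ℂ t (rho G v s lam s)⁻¹ = 0 := by
  have h1 := MvPowerSeries.mul_inv_cancel (rho G v s lam s) (cc_rho_s G v s lam hs hl)
  have h2 := congrArg (pderiv ℂ t) h1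
  rw [Derivation.leibniz, der_rho G v s lam hs hl t ht, smul_zero, add_zero,
    Derivation.map_one_eq_zero, smul_eq_mul] at h2
  rcases mul_eq_zero.1 h2 with h3 | h3
  · exfalso
    rw [h3, zero_mul] at h1
    exact zero_ne_one h1
  · exact h3

/-- the index of the equation of the divisor -/
def zi (hs : s < G.m) : G.Var :=
  ⟨v, ⟨s, lt_of_lt_of_le hs (G.m_le_rows v)⟩, ⟨s, lt_of_lt_of_le hs (G.le v)⟩⟩

/-- the coordinates on the exceptional divisor -/
noncomputable def wS (c : ℕ) : MvPowerSeries G.Var ℂ :=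
  if c = s then 1 else if h : s < G.rows v ∧ s < c ∧ c < G.n v then
    X ⟨v, ⟨s, h.1⟩, ⟨c, h.2.2⟩⟩ else 0

theorem wS_z : wS G v s s = 1 := if_pos rfl

theorem wS_small {c : ℕ} (hc : c < s) : wS G v s c = 0 := by
  rw [wS, if_neg (by omega), dif_neg (by omega)]

theorem wS_other (hs : s < G.m) {c : ℕ} (hc : s < c) (hn : c < G.n v) :
    wS G v s c = X ⟨v, ⟨s, lt_of_lt_of_le hs (G.m_le_rows v)⟩, ⟨c, hn⟩⟩ := by
  rw [wS, if_neg (by omega), dif_pos ⟨lt_of_lt_of_le hs (G.m_le_rows v), hc, hn⟩]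

theorem cc_wS (c : ℕ) : constantCoeff (wS G v s c) = if c = s then 1 else 0 := by
  unfold wS
  split_ifs <;> simp

/-- the chart -/
noncomputable def xi (hs : s < G.m) (k : G.Var) : MvPowerSeries G.Var ℂ :=
  if Sp G v s k then
    (rho G v s lam s)⁻¹ * (X (zi G v s hs) * wS G v s k.2.2 -
      ∑ l ∈ (Finset.range (G.rows v)).erase s,
        rho G v s lam l * G.ent (sx G v s lam) v l k.2.2)
  else sx G v s lam k

theorem xi_other (hs : s < G.m) (k : G.Var) (h : ¬ Sp G v s k) :
    xi G v s lam hs k = sx G v s lam k := if_neg h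

theorem ent_xi (hs : s < G.m) (i j : ℕ) (h : i ≠ s ∨ j < s) :
    G.ent (xi G v s lam hs) v i j = G.ent (sx G v s lam) v i j := by
  unfold MTree.ent
  split_ifs
  · refine xi_other G v s lam hs _ ?_
    rintro ⟨_, h2, h3⟩
    change i = s at h2
    change s ≤ j at h3
    omega
  · rfl

theorem qm_xi (hs : s < G.m) (i j : ℕ) :
    G.qm (xi G v s lam hs) v i j = G.qm (sx G v s lam) v i j := by
  refine G.qm_congr _ _ v (fun k hk => xi_other G v s lam hs k ?_) i j
  rintro ⟨h1, _⟩
  rw [h1] at hk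
  exact lt_irrefl _ hk

theorem pm_xi (hs : s < G.m) (i j : ℕ) (hi : i < G.m) (hj : j < s) :
    G.pm (xi G v s lam hs) v i j = G.pm (sx G v s lam) v i j := by
  rw [G.pm_eq _ v i j hi, G.pm_eq _ v i j hi]
  refine Finset.sum_congr rfl fun k _ => ?_
  rw [qm_xi, ent_xi G v s lam hs k j (Or.inr hj)]

theorem cc_ent_sx (i j : ℕ) (hi : i < G.rows v) (hj : j < G.n v) :
    constantCoeff (G.ent (sx G v s lam) v i j)
      = if i = j ∧ i < G.m ∧ i ≠ s then lam else 0 := by
  rw [G.map_ent]
  have h1 : (fun k => constantCoeff (sx G v s lam k)) = bs G v s lam :=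
    funext (cc_sx G v s lam)
  rw [h1, ent_bs G v s lam v i j hi hj]
  simp

theorem cc_xi (hs : s < G.m) (hl : lam ≠ 0) (k : G.Var) :
    constantCoeff (xi G v s lam hs k) = bs G v s lam k := by
  by_cases h : Sp G v s k
  · obtain ⟨c, hc, hr⟩ := cc_rho G v s lam hs hl
    rw [xi, if_pos h, map_mul, map_sub, map_mul, constantCoeff_X, zero_mul, zero_sub, map_sum,
      Finset.sum_eq_zero, neg_zero, mul_zero, bs, if_neg]
    · rintro ⟨_, _, h3⟩
      exact h3 ⟨h.1, h.2.1⟩
    · intro l hl'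
      have h1 := Finset.mem_erase.1 hl'
      rw [map_mul, hr l (Finset.mem_range.1 h1.2), if_neg (Ne.symm h1.1), zero_mul]
  · rw [xi_other G v s lam hs k h, cc_sx]

/-- the row `s` of `P_v` -/
theorem row_v (hs : s < G.m) (hl : lam ≠ 0) (j : ℕ) (hj : j < G.n v) :
    G.pm (xi G v s lam hs) v s j
      = ∑ k : Fin s, qv G v s lam k * G.pm (xi G v s lam hs) v k j +
        X (zi G v s hs) * wS G v s j := by
  have hsr : s < G.rows v := lt_of_lt_of_le hs (G.m_le_rows v)
  rcases lt_or_ge j s with hjs | hjs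
  · rw [wS_small G v s hjs, mul_zero, add_zero, pm_xi G v s lam hs s j hs hjs]
    have h1 := congrFun (qv_DM G v s lam hs hl) ⟨j, hjs⟩
    rw [rhs, Matrix.vecMul, dotProduct] at h1
    rw [← h1]
    refine Finset.sum_congr rfl fun k _ => ?_
    have hk := k.2
    rw [DM, Matrix.of_apply, pm_xi G v s lam hs k j (by omega) hjs]
  · have h1 : ∑ l ∈ Finset.range (G.rows v), rho G v s lam l * G.ent (xi G v s lam hs) v l j
        = X (zi G v s hs) * wS G v s j := by
      rw [← Finset.add_sum_erase _ _ (Finset.mem_range.2 hsr)]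
      have h2 : G.ent (xi G v s lam hs) v s j = (rho G v s lam s)⁻¹ *
          (X (zi G v s hs) * wS G v s j - ∑ l ∈ (Finset.range (G.rows v)).erase s,
            rho G v s lam l * G.ent (sx G v s lam) v l j) := by
        rw [MTree.ent, dif_pos ⟨hsr, hj⟩, xi, if_pos (show Sp G v s _ from ⟨rfl, rfl, hjs⟩)]
      have h3 : ∑ l ∈ (Finset.range (G.rows v)).erase s,
            rho G v s lam l * G.ent (xi G v s lam hs) v l j
          = ∑ l ∈ (Finset.range (G.rows v)).erase s,
            rho G v s lam l * G.ent (sx G v s lam) v l j :=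
        Finset.sum_congr rfl fun l hl' => by
          rw [ent_xi G v s lam hs l j (Or.inl (Finset.mem_erase.1 hl').1)]
      rw [h2, ← mul_assoc,
        MvPowerSeries.mul_inv_cancel (rho G v s lam s) (cc_rho_s G v s lam hs hl), one_mul, h3]
      ring
    rw [← h1, G.pm_eq _ v s j hs]
    have h2 : ∀ k : Fin s, qv G v s lam k * G.pm (xi G v s lam hs) v k j
        = ∑ l ∈ Finset.range (G.rows v), qv G v s lam k * G.qm (sx G v s lam) v k l *
          G.ent (xi G v s lam hs) v l j := by
      intro k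
      have hk := k.2
      rw [G.pm_eq _ v k j (by omega), Finset.mul_sum]
      refine Finset.sum_congr rfl fun l _ => ?_
      rw [qm_xi, mul_assoc]
    rw [Finset.sum_congr rfl fun k _ => h2 k, Finset.sum_comm, ← Finset.sum_add_distrib]
    refine Finset.sum_congr rfl fun l _ => ?_
    rw [qm_xi, rho, ← Finset.sum_mul]
    ring

/-- the row `s` of `P_u`, `u` a descendant of `v` -/
theorem row_u (hs : s < G.m) (hl : lam ≠ 0) (u : Fin G.K) (hu : G.Anc v u) :
    ∃ w : ℕ → MvPowerSeries G.Var ℂ,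
      (∀ j, j < G.n u → G.pm (xi G v s lam hs) u s j
        = ∑ k : Fin s, qv G v s lam k * G.pm (xi G v s lam hs) u k j + X (zi G v s hs) * w j) ∧
      ∃ c : ℂ, c ≠ 0 ∧ ∀ j, j < G.n u → constantCoeff (w j) = if j = s then c else 0 := by
  induction hu with
  | refl =>
    exact ⟨wS G v s, fun j hj => row_v G v s lam hs hl j hj, 1, one_ne_zero, fun j _ =>
      cc_wS G v s j⟩
  | @tail a u hva hau ih =>
    obtain ⟨w, hw, c, hc, hcc⟩ := ih
    refine ⟨fun j => ∑ l ∈ Finset.range (G.n a), w l * G.ent (xi G v s lam hs) u l j,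
      fun j hj => ?_, c * lam, mul_ne_zero hc hl, fun j hj => ?_⟩
    · rw [G.pm_some _ hau]
      have h2 : ∀ k : Fin s, qv G v s lam k * G.pm (xi G v s lam hs) u k j
          = ∑ l ∈ Finset.range (G.n a), qv G v s lam k * G.pm (xi G v s lam hs) a k l *
            G.ent (xi G v s lam hs) u l j := by
        intro k
        rw [G.pm_some _ hau, Finset.mul_sum]
        exact Finset.sum_congr rfl fun l _ => (mul_assoc _ _ _).symm
      rw [Finset.sum_congr rfl fun k _ => h2 k, Finset.sum_comm, Finset.mul_sum,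
        ← Finset.sum_add_distrib]
      refine Finset.sum_congr rfl fun l hl' => ?_
      rw [hw l (Finset.mem_range.1 hl'), ← Finset.sum_mul]
      ring
    · have hva' : v < u := lt_of_le_of_lt (G.anc_le hva) (G.lt u a hau)
      have hr : G.rows u = G.n a := by
        unfold MTree.rows
        rw [hau]
      rw [map_sum, Finset.sum_eq_single s]
      · rw [map_mul, hcc s (lt_of_lt_of_le hs (G.le a)), if_pos rfl, G.map_ent]
        have h1 : (fun k => constantCoeff (xi G v s lam hs k)) = bs G v s lam :=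
          funext (cc_xi G v s lam hs hl)
        rw [h1, ent_bs G v s lam u s j (by rw [hr]; exact lt_of_lt_of_le hs (G.le a)) hj]
        by_cases hjs : j = s
        · rw [if_pos hjs, if_pos ⟨hjs.symm, hs, fun h3 => hva'.ne' h3.1⟩]
        · rw [if_neg hjs, if_neg (fun h3 => hjs h3.1.symm), mul_zero]
      · intro l hl' hls
        rw [map_mul, hcc l (Finset.mem_range.1 hl'), if_neg hls, zero_mul]
      · intro h2
        exact absurd (Finset.mem_range.2 (lt_of_lt_of_le hs (G.le a))) h2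

/-- the order of the coordinates -/
noncomputable def ord (t : G.Var) : ℕ :=
  if Sp G v s t then Fintype.card G.Var + (t.2.2 : ℕ) else Fintype.equivFin G.Var t

theorem ord_inj : Function.Injective (ord G v s) := by
  intro t u h
  have h1 := (Fintype.equivFin G.Var t).2
  have h2 := (Fintype.equivFin G.Var u).2
  unfold ord at h
  split_ifs at h with h4 h5 h6
  · obtain ⟨tv, ti, tj⟩ := t
    obtain ⟨uv, ui, uj⟩ := u
    obtain ⟨ha, hb, hc⟩ := h4
    obtain ⟨hd, he, hf⟩ := h5
    change tv = v at ha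
    change uv = v at hd
    subst ha
    subst hd
    have h7 : ti = ui := Fin.ext (hb.trans he.symm)
    have h8 : tj = uj := Fin.ext (by
      change Fintype.card G.Var + (tj : ℕ) = Fintype.card G.Var + (uj : ℕ) at h
      omega)
    rw [h7, h8]
  · omega
  · omega
  · exact (Fintype.equivFin G.Var).injective (Fin.ext h)

theorem der_wS (t : G.Var) (c : ℕ) (h : (t.2.2 : ℕ) ≠ c) :
    pderiv ℂ t (wS G v s c) = 0 := by
  unfold wS
  split_ifs with h1 h2
  · exact Derivation.map_one_eq_zero _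
  · rw [pderiv_X_of_ne]
    intro h3
    apply h
    rw [← h3]
  · exact map_zero _

theorem der_xi_S (hs : s < G.m) (hl : lam ≠ 0) (t k : G.Var) (ht : Sp G v s t)
    (hk : Sp G v s k) : pderiv ℂ t (xi G v s lam hs k)
      = (rho G v s lam s)⁻¹ * (X (zi G v s hs) * pderiv ℂ t (wS G v s k.2.2)
        + wS G v s k.2.2 * pderiv ℂ t (X (zi G v s hs))) := by
  rw [xi, if_pos hk, Derivation.leibniz, der_rho_inv G v s lam hs hl t ht, smul_zero, add_zero,
    map_sub, map_sum, Finset.sum_eq_zero, sub_zero, Derivation.leibniz, smul_eq_mul, smul_eq_mul,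
    smul_eq_mul]
  intro l hl'
  rw [Derivation.leibniz, der_rho G v s lam hs hl t ht,
    der_ent_sx G v s lam t ht l _ (Or.inl (Finset.mem_erase.1 hl').1), smul_zero, smul_zero,
    add_zero]

theorem sp_ext {t k : G.Var} (ht : Sp G v s t) (hk : Sp G v s k)
    (h : (t.2.2 : ℕ) = k.2.2) : t = k := by
  obtain ⟨tv, ti, tj⟩ := t
  obtain ⟨uv, ui, uj⟩ := k
  obtain ⟨ha, hb, hc⟩ := ht
  obtain ⟨hd, he, hf⟩ := hk
  change tv = v at ha
  change uv = v at hd
  subst ha
  subst hd
  have h7 : ti = ui := Fin.ext (hb.trans he.symm)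
  have h8 : tj = uj := Fin.ext h
  rw [h7, h8]

theorem sp_lt {t : G.Var} (ht : Sp G v s t) : (t.2.2 : ℕ) < G.n v := by
  obtain ⟨tv, ti, tj⟩ := t
  obtain ⟨ha, hb, hc⟩ := ht
  change tv = v at ha
  subst ha
  exact tj.2

theorem sp_zi (hs : s < G.m) : Sp G v s (zi G v s hs) := ⟨rfl, rfl, le_rfl⟩

theorem jac_entry (hs : s < G.m) (hl : lam ≠ 0) (t k : G.Var)
    (hlt : ord G v s k < ord G v s t) : pderiv ℂ t (xi G v s lam hs k) = 0 := by
  have hne : t ≠ k := by
    rintro rfl
    exact lt_irrefl _ hlt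
  have hb1 := (Fintype.equivFin G.Var t).2
  have hb2 := (Fintype.equivFin G.Var k).2
  by_cases h : Sp G v s k
  · have ht : Sp G v s t := by
      by_contra hcon
      unfold ord at hlt
      rw [if_neg hcon, if_pos h] at hlt
      omega
    have hlt2 : (k.2.2 : ℕ) < t.2.2 := by
      unfold ord at hlt
      rw [if_pos ht, if_pos h] at hlt
      omega
    have h3 := h.2.2
    rw [der_xi_S G v s lam hs hl t k ht h, der_wS G v s t _ (by omega), mul_zero, zero_add,
      pderiv_X_of_ne, mul_zero, mul_zero]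
    intro h1
    have h2 : ((zi G v s hs).2.2 : ℕ) = t.2.2 := by rw [h1]
    change s = (t.2.2 : ℕ) at h2
    omega
  · rw [xi_other G v s lam hs k h]
    exact der_sx G v s lam t k hne

theorem jac_diag (hs : s < G.m) (hl : lam ≠ 0) (t : G.Var) :
    pderiv ℂ t (xi G v s lam hs t)
      = (if Sp G v s t ∧ s < (t.2.2 : ℕ) then X (zi G v s hs) else 1) *
        (if Sp G v s t then (rho G v s lam s)⁻¹ else 1) := by
  by_cases h : Sp G v s t
  · rw [der_xi_S G v s lam hs hl t t h h, if_pos h, mul_comm]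
    congr 1
    by_cases h1 : s < (t.2.2 : ℕ)
    · rw [if_pos ⟨h, h1⟩, wS_other G v s hs h1 (sp_lt G v s h)]
      have h2 : (⟨v, ⟨s, lt_of_lt_of_le hs (G.m_le_rows v)⟩, ⟨(t.2.2 : ℕ), sp_lt G v s h⟩⟩ :
          G.Var) = t := sp_ext G v s ⟨rfl, rfl, h1.le⟩ h rfl
      rw [h2, pderiv_X_self, mul_one, pderiv_X_of_ne, mul_zero, add_zero]
      intro h3
      have h4 : ((zi G v s hs).2.2 : ℕ) = t.2.2 := by rw [h3]
      change s = (t.2.2 : ℕ) at h4
      omega
    · have h4 : (t.2.2 : ℕ) = s := by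
        have := h.2.2
        omega
      rw [if_neg (fun h' => h1 h'.2), h4, wS_z]
      have h2 : zi G v s hs = t := sp_ext G v s (sp_zi G v s hs) h h4.symm
      rw [h2, pderiv_X_self, one_mul, Derivation.map_one_eq_zero, mul_zero, zero_add]
  · rw [if_neg (fun h' => h h'.1), if_neg h, xi_other G v s lam hs t h, sx, map_add, pderiv_C,
      zero_add, one_mul]
    exact pderiv_X_self

theorem card_S (hs : s < G.m) : (Finset.univ.filter fun t : G.Var =>
    Sp G v s t ∧ s < (t.2.2 : ℕ)).card = G.n v - 1 - s := by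
  have hn := G.le v
  have hc : (Finset.Ico (s + 1) (G.n v)).card = G.n v - 1 - s := by
    rw [Nat.card_Ico]
    omega
  rw [← hc]
  refine Finset.card_nbij (fun t => (t.2.2 : ℕ)) ?_ ?_ ?_
  · intro t ht
    have h := (Finset.mem_filter.1 ht).2
    have h1 : (t.2.2 : ℕ) < G.n v := sp_lt G v s h.1
    exact Finset.mem_coe.2 (Finset.mem_Ico.2 ⟨h.2, h1⟩)
  · intro t ht u hu htu
    have h1 := (Finset.mem_filter.1 (Finset.mem_coe.1 ht)).2
    have h2 := (Finset.mem_filter.1 (Finset.mem_coe.1 hu)).2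
    exact sp_ext G v s h1.1 h2.1 htu
  · intro c hc
    have h := Finset.mem_Ico.1 (Finset.mem_coe.1 hc)
    have h3 : s ≤ c := by omega
    exact ⟨⟨v, ⟨s, lt_of_lt_of_le hs (G.m_le_rows v)⟩, ⟨c, h.2⟩⟩, Finset.mem_coe.2
      (Finset.mem_filter.2 ⟨Finset.mem_univ _, ⟨rfl, rfl, h3⟩, h.1⟩), rfl⟩

theorem jacobian (hs : s < G.m) (hl : lam ≠ 0) :
    (Matrix.of fun t i => pderiv ℂ t (xi G v s lam hs i)).det
      = X (zi G v s hs) ^ (G.n v - 1 - s) *
        ∏ t : G.Var, (if Sp G v s t then (rho G v s lam s)⁻¹ else 1) := by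
  rw [det_upper (Matrix.of fun t i => pderiv ℂ t (xi G v s lam hs i)) (ord G v s)
    (ord_inj G v s) fun i j hij => jac_entry G v s lam hs hl i j hij]
  simp only [Matrix.of_apply, jac_diag G v s lam hs hl]
  rw [Finset.prod_mul_distrib]
  congr 1
  rw [Finset.prod_ite, Finset.prod_const, Finset.prod_const_one, mul_one, card_S G v s hs]

theorem cc_jac (hs : s < G.m) (hl : lam ≠ 0) :
    constantCoeff (∏ t : G.Var, (if Sp G v s t then (rho G v s lam s)⁻¹ else 1)) ≠ 0 := by
  rw [map_prod]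
  refine Finset.prod_ne_zero_iff.2 fun t _ => ?_
  split_ifs
  · rw [MvPowerSeries.constantCoeff_inv]
    exact inv_ne_zero (cc_rho_s G v s lam hs hl)
  · rw [map_one]
    exact one_ne_zero

end Chart

end Pool.Agent.Run7.h827.MT
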