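import Pool.Agent.Run7.h827.MT.Chart

set_option autoImplicit false
set_option linter.unusedSectionVars false
set_option linter.unusedVariables false

/-! # Products of generic matrices along rooted forests: the Rees divisors -/

namespace Pool.Agent.Run7.h827.MT

open MvPowerSeries Pool.Agent.W574.SM Pool.Agent.Y231.RF Pool.Agent.Y228.RR Pool.Agent.R779.HK
  Pool.Agent.Run7.h827.NE

/-- The pairs `(v, i)`, `v` a vertex, `i < m`. -/
abbrev MTree.Cell (G : MTree) : Type := Fin G.K × Fin G.m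

/-- The choices of `i + 1` columns of the matrix `P_v`, `q = (v, i)`. -/
def MTree.MI (G : MTree) (q : G.Cell) : Type := Fin ((q.2 : ℕ) + 1) ↪o Fin (G.n q.1)

noncomputable instance instFintypeMI (G : MTree) (q : G.Cell) : Fintype (G.MI q) :=
  inferInstanceAs (Fintype (Fin ((q.2 : ℕ) + 1) ↪o Fin (G.n q.1)))

noncomputable instance instDecidableEqMI (G : MTree) (q : G.Cell) : DecidableEq (G.MI q) :=
  Classical.decEq _

variable (G : MTree)

/-- The minor of the first `i + 1` rows of `P_v` with the columns `J`, `q = (v, i)`. -/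
noncomputable def MTree.gen (q : G.Cell) (J : G.MI q) : MvPolynomial G.Var ℂ :=
  (Matrix.of fun i j : Fin ((q.2 : ℕ) + 1) => G.pm (MvPolynomial.X (R := ℂ)) q.1 i
    ((show Fin ((q.2 : ℕ) + 1) ↪o Fin (G.n q.1) from J) j : ℕ)).det

/-- the matrix of a minor with the values `x` -/
noncomputable def MM {R : Type} [CommRing R] (x : G.Var → R) (q : G.Cell)
    (J : Fin ((q.2 : ℕ) + 1) → ℕ) :
    Matrix (Fin ((q.2 : ℕ) + 1)) (Fin ((q.2 : ℕ) + 1)) R :=
  Matrix.of fun i j => G.pm x q.1 i (J j)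

theorem aeval_gen (x : G.Var → MvPowerSeries G.Var ℂ) (q : G.Cell) (J : G.MI q) :
    MvPolynomial.aeval x (G.gen q J)
      = (MM G x q fun j => ((show Fin ((q.2 : ℕ) + 1) ↪o Fin (G.n q.1) from J) j : ℕ)).det := by
  rw [MTree.gen, AlgHom.map_det]
  congr 1
  ext1 i j
  rw [AlgHom.mapMatrix_apply, Matrix.map_apply, Matrix.of_apply, MM, Matrix.of_apply]
  have h := G.map_pm (MvPolynomial.aeval x : MvPolynomial G.Var ℂ →ₐ[ℂ] _).toRingHom
    (MvPolynomial.X (R := ℂ)) q.1 i
    ((show Fin ((q.2 : ℕ) + 1) ↪o Fin (G.n q.1) from J) j : ℕ)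
  have h2 : (fun k => (MvPolynomial.aeval x : MvPolynomial G.Var ℂ →ₐ[ℂ] _).toRingHom
      (MvPolynomial.X k)) = x := by
    funext k
    exact MvPolynomial.aeval_X x k
  rw [h2] at h
  exact h

/-- the first columns -/
noncomputable def J0 (q : G.Cell) : G.MI q :=
  (Fin.castLEOrderEmb (by have := q.2.2; have := G.le q.1; omega) :
    Fin ((q.2 : ℕ) + 1) ↪o Fin (G.n q.1))

theorem J0_val (q : G.Cell) (j : Fin ((q.2 : ℕ) + 1)) :
    ((show Fin ((q.2 : ℕ) + 1) ↪o Fin (G.n q.1) from J0 G q) j : ℕ) = j := rfl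

section Minors

variable (v : Fin G.K) (s : ℕ) (lam : ℂ)

/-- the minors divisible by the equation of the divisor -/
theorem MM_large (hs : s < G.m) (hl : lam ≠ 0) (q : G.Cell) (h1 : G.Anc v q.1)
    (h2 : s < (q.2 : ℕ) + 1) : ∃ w : ℕ → MvPowerSeries G.Var ℂ,
      (∀ J : Fin ((q.2 : ℕ) + 1) → ℕ, (∀ j, J j < G.n q.1) →
        (MM G (xi G v s lam hs) q J).det = X (zi G v s hs) *
          ((MM G (xi G v s lam hs) q J).updateRow ⟨s, h2⟩ fun j => w (J j)).det) ∧
      ∃ c : ℂ, c ≠ 0 ∧ ∀ j, j < G.n q.1 → constantCoeff (w j) = if j = s then c else 0 := by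
  obtain ⟨w, hw, hc⟩ := row_u G v s lam hs hl q.1 h1
  refine ⟨w, fun J hJ => ?_, hc⟩
  refine det_comb (MM G (xi G v s lam hs) q J) ⟨s, h2⟩ (qv G v s lam) _ _ fun j => ?_
  rw [MM, Matrix.of_apply]
  exact hw (J j) (hJ j)

theorem cc_MM_large (hs : s < G.m) (hl : lam ≠ 0) (q : G.Cell) (h1 : G.Anc v q.1)
    (h2 : s < (q.2 : ℕ) + 1) (w : ℕ → MvPowerSeries G.Var ℂ)
    (hw : ∃ c : ℂ, c ≠ 0 ∧ ∀ j, j < G.n q.1 → constantCoeff (w j) = if j = s then c else 0) :
    constantCoeff ((MM G (xi G v s lam hs) q fun j => (j : ℕ)).updateRow ⟨s, h2⟩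
      fun j => w j).det ≠ 0 := by
  obtain ⟨c, hc, hwc⟩ := hw
  obtain ⟨c', hc', h⟩ := pm_bs G v s lam hl q.1
  have hn := G.le q.1
  have hm := q.2.2
  have h3 : (constantCoeff : MvPowerSeries G.Var ℂ →+* ℂ).mapMatrix
      ((MM G (xi G v s lam hs) q fun j => (j : ℕ)).updateRow ⟨s, h2⟩ fun j => w j)
      = Matrix.diagonal fun i : Fin ((q.2 : ℕ) + 1) => if (i : ℕ) = s then c else c' := by
    ext i j
    have hi := i.2
    have hj := j.2
    rw [RingHom.mapMatrix_apply, Matrix.map_apply, Matrix.updateRow_apply, Matrix.diagonal_apply]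
    by_cases his : i = ⟨s, h2⟩
    · have his' : (i : ℕ) = s := congrArg Fin.val his
      rw [if_pos his, hwc j (by omega), if_pos his']
      by_cases hij : i = j
      · subst hij
        rw [if_pos rfl, if_pos his']
      · rw [if_neg hij, if_neg]
        intro h4
        exact hij (Fin.ext (by omega))
    · have his' : (i : ℕ) ≠ s := fun h4 => his (Fin.ext h4)
      rw [if_neg his, MM, Matrix.of_apply, cc_pm G v s lam _ (cc_xi G v s lam hs hl),
        if_neg his']
      by_cases hij : i = j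
      · subst hij
        rw [if_pos rfl]
        exact (h i i (by omega) (by omega)).1 ⟨rfl, fun h4 => his' h4.2⟩
      · rw [if_neg hij]
        exact (h i j (by omega) (by omega)).2 fun h4 => hij (Fin.ext h4.1)
  rw [RingHom.map_det, h3, Matrix.det_diagonal]
  refine Finset.prod_ne_zero_iff.2 fun i _ => ?_
  split_ifs
  · exact hc
  · exact hc'

theorem cc_MM_small (hs : s < G.m) (hl : lam ≠ 0) (q : G.Cell)
    (h : ¬ (G.Anc v q.1 ∧ s < (q.2 : ℕ) + 1)) :
    constantCoeff (MM G (xi G v s lam hs) q fun j => (j : ℕ)).det ≠ 0 := by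
  obtain ⟨c', hc', h'⟩ := pm_bs G v s lam hl q.1
  have hn := G.le q.1
  have hm := q.2.2
  have h3 : (constantCoeff : MvPowerSeries G.Var ℂ →+* ℂ).mapMatrix
      (MM G (xi G v s lam hs) q fun j => (j : ℕ)) = Matrix.diagonal fun _ => c' := by
    ext i j
    have hi := i.2
    have hj := j.2
    rw [RingHom.mapMatrix_apply, Matrix.map_apply, Matrix.diagonal_apply, MM, Matrix.of_apply,
      cc_pm G v s lam _ (cc_xi G v s lam hs hl)]
    by_cases hij : i = j
    · subst hij
      rw [if_pos rfl]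
      refine (h' i i (by omega) (by omega)).1 ⟨rfl, fun h4 => h ⟨h4.1, ?_⟩⟩
      rw [← h4.2]
      exact hi
    · rw [if_neg hij]
      exact (h' i j (by omega) (by omega)).2 fun h4 => hij (Fin.ext h4.1)
  rw [RingHom.map_det, h3, Matrix.det_diagonal]
  exact Finset.prod_ne_zero_iff.2 fun _ _ => hc'

/-- the columns of the minors which give the coordinates of the divisor -/
def Jc (c : ℕ) (j : Fin (s + 1)) : ℕ := if (j : ℕ) = s then c else j

theorem Jc_mono (c : ℕ) (hc : s ≤ c) {i j : Fin (s + 1)} (h : i < j) : Jc s c i < Jc s c j := by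
  have hi := i.2
  have hj := j.2
  have h' : (i : ℕ) < j := h
  unfold Jc
  split_ifs <;> omega

theorem Jc_lt (hs : s < G.m) (c : ℕ) (hc : c < G.n v) (j : Fin (s + 1)) :
    Jc s c j < G.n v := by
  have hj := j.2
  have hn := G.le v
  unfold Jc
  split_ifs <;> omega

/-- the minors which give the coordinates of the divisor -/
theorem MM_Jc (hs : s < G.m) (hl : lam ≠ 0) (c : ℕ) (hc : c < G.n v) :
    (MM G (xi G v s lam hs) (v, (⟨s, hs⟩ : Fin G.m)) (Jc s c)).det
      = X (zi G v s hs) * ((DM G v s lam).det * wS G v s c) := by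
  have h0 : (MM G (xi G v s lam hs) (v, (⟨s, hs⟩ : Fin G.m)) (Jc s c)).det
      = X (zi G v s hs) * ((MM G (xi G v s lam hs) (v, (⟨s, hs⟩ : Fin G.m)) (Jc s c)).updateRow
        (Fin.last s) fun j => wS G v s (Jc s c j)).det := by
    refine det_comb (MM G (xi G v s lam hs) (v, (⟨s, hs⟩ : Fin G.m)) (Jc s c)) (Fin.last s)
      (qv G v s lam) _ _ fun j => ?_
    rw [MM, Matrix.of_apply]
    exact row_v G v s lam hs hl _ (Jc_lt G v s hs c hc j)
  rw [h0]
  congr 1
  rw [Matrix.det_succ_row _ (Fin.last s), Finset.sum_eq_single (Fin.last s)]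
  · rw [Matrix.updateRow_self]
    have h1 : ((MM G (xi G v s lam hs) (v, (⟨s, hs⟩ : Fin G.m)) (Jc s c)).updateRow
        (Fin.last s) fun j => wS G v s (Jc s c j)).submatrix
          (Fin.last s).succAbove (Fin.last s).succAbove
        = DM G v s lam := by
      ext1 i j
      have hi := i.2
      have hj := j.2
      rw [Matrix.submatrix_apply, Fin.succAbove_last, Matrix.updateRow_ne (by
        intro h
        have h2 := congrArg Fin.val h
        simp only [Fin.val_castSucc, Fin.val_last] at h2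
        omega), MM, Matrix.of_apply, DM, Matrix.of_apply]
      have h2 : Jc s c (Fin.castSucc j) = j := by
        rw [Jc, if_neg (by simp only [Fin.val_castSucc]; omega), Fin.val_castSucc]
      rw [h2, Fin.val_castSucc]
      exact pm_xi G v s lam hs i j (by omega) hj
    rw [h1]
    have h3 : ((-1 : MvPowerSeries G.Var ℂ)) ^
        (((Fin.last s : Fin (s + 1)) : ℕ) + ((Fin.last s : Fin (s + 1)) : ℕ)) = 1 :=
      Even.neg_one_pow ⟨_, rfl⟩
    rw [h3, one_mul, mul_comm]
    congr 2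
    rw [Jc, if_pos (Fin.val_last _)]
  · intro j _ hj
    have hj1 : (j : ℕ) ≠ s := fun h => hj (Fin.ext h)
    have hj2 := j.2
    rw [Matrix.updateRow_self, Jc, if_neg hj1, wS_small G v s (by omega), mul_zero, zero_mul]
  · intro h
    exact absurd (Finset.mem_univ _) h

/-- the multiplicities along `E_p` -/
noncomputable def mulE (p q : G.Cell) : ℕ := by
  classical exact if G.Anc p.1 q.1 ∧ (p.2 : ℕ) ≤ q.2 then 1 else 0

theorem mulE_pos {p q : G.Cell} (h : G.Anc p.1 q.1 ∧ (p.2 : ℕ) ≤ q.2) : mulE G p q = 1 := by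
  unfold mulE
  exact if_pos h

theorem mulE_neg {p q : G.Cell} (h : ¬ (G.Anc p.1 q.1 ∧ (p.2 : ℕ) ≤ q.2)) :
    mulE G p q = 0 := by
  unfold mulE
  exact if_neg h

/-- **The charts.** -/
theorem chart_exists (p : G.Cell) (lam : ℂ) (hl : lam ≠ 0) :
    ∃ E : Chart G.gen, E.k = G.n p.1 - 1 - p.2 ∧ E.m = mulE G p ∧
      (E.IsRees fun q => q = p) ∧
      (∀ k, constantCoeff (E.ξ k) = bs G p.1 p.2 lam k) ∧
      ∃ (P : MvPolynomial G.Var ℂ) (U : MvPowerSeries G.Var ℂ),
        constantCoeff U ≠ 0 ∧ MvPolynomial.aeval E.ξ P = X E.z * U := by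
  classical
  obtain ⟨v, ⟨s, hs⟩⟩ := p
  have hval0 : ∀ q : G.Cell, MvPolynomial.aeval (xi G v s lam hs) (G.gen q (J0 G q))
      = (MM G (xi G v s lam hs) q fun j => (j : ℕ)).det := fun q => aeval_gen G _ q _
  have hatt : ∀ q : G.Cell, ∃ U : MvPowerSeries G.Var ℂ, constantCoeff U ≠ 0 ∧
      MvPolynomial.aeval (xi G v s lam hs) (G.gen q (J0 G q))
        = X (zi G v s hs) ^ (mulE G (v, ⟨s, hs⟩) q) * U := by
    intro q
    rw [hval0]
    by_cases h : G.Anc v q.1 ∧ s ≤ q.2
    · obtain ⟨w, hw, hc⟩ := MM_large G v s lam hs hl q h.1 (Nat.lt_succ_of_le h.2)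
      refine ⟨_, cc_MM_large G v s lam hs hl q h.1 (Nat.lt_succ_of_le h.2) w hc, ?_⟩
      rw [mulE_pos G (p := (v, (⟨s, hs⟩ : Fin G.m))) h, pow_one]
      refine hw _ fun j => ?_
      have := j.2
      have := q.2.2
      have := G.le q.1
      omega
    · refine ⟨_, cc_MM_small G v s lam hs hl q (fun h' => h ⟨h'.1, Nat.lt_succ_iff.1 h'.2⟩), ?_⟩
      rw [mulE_neg G (p := (v, (⟨s, hs⟩ : Fin G.m))) h, pow_zero, one_mul]
  choose U hU hval using hatt
  have hdiv : ∀ (q : G.Cell) (j : G.MI q), X (zi G v s hs) ^ (mulE G (v, ⟨s, hs⟩) q) ∣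
      MvPolynomial.aeval (xi G v s lam hs) (G.gen q j) := by
    intro q j
    by_cases h : G.Anc v q.1 ∧ s ≤ q.2
    · obtain ⟨w, hw, hc⟩ := MM_large G v s lam hs hl q h.1 (Nat.lt_succ_of_le h.2)
      rw [mulE_pos G (p := (v, (⟨s, hs⟩ : Fin G.m))) h, pow_one, aeval_gen,
        hw _ fun i => Fin.is_lt _]
      exact dvd_mul_right _ _
    · rw [mulE_neg G (p := (v, (⟨s, hs⟩ : Fin G.m))) h, pow_zero]
      exact one_dvd _
  let E : Chart G.gen :=
    { z := zi G v s hs
      ξ := xi G v s lam hs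
      k := G.n v - 1 - s
      m := mulE G (v, ⟨s, hs⟩)
      j0 := J0 G
      jacobian := ⟨_, cc_jac G v s lam hs hl, jacobian G v s lam hs hl⟩
      divides := hdiv
      attained := fun q => ⟨U q, hU q, hval q⟩ }
  have hw0 : wS G v s s = 1 := wS_z G v s
  have hJs : Jc s s = fun j : Fin (s + 1) => (j : ℕ) := by
    funext j
    unfold Jc
    split_ifs with h
    · exact h.symm
    · rfl
  have hzU : MvPolynomial.aeval (xi G v s lam hs)
      (G.gen (v, (⟨s, hs⟩ : Fin G.m)) (J0 G (v, ⟨s, hs⟩)))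
      = X (zi G v s hs) * (DM G v s lam).det := by
    rw [hval0]
    have h := MM_Jc G v s lam hs hl s (lt_of_lt_of_le hs (G.le v))
    rw [hw0, mul_one, hJs] at h
    exact h
  refine ⟨E, rfl, rfl, ?_, fun k => cc_xi G v s lam hs hl k, ?_⟩
  swap
  · exact ⟨_, (DM G v s lam).det, cc_det_DM G v s lam hs hl, hzU⟩
  refine ⟨fun t => X t, rfl, fun t => constantCoeff_X _, ?_, fun t ht => ?_⟩
  · have h1 : (Matrix.of fun u t : G.Var => constantCoeff (pderiv ℂ u
        (X t : MvPowerSeries G.Var ℂ))) = 1 := by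
      ext u t
      rw [Matrix.of_apply, Matrix.one_apply]
      by_cases hut : u = t
      · subst hut
        rw [if_pos rfl, pderiv_X_self, map_one]
      · rw [if_neg hut, pderiv_X_of_ne (Ne.symm hut), map_zero]
    rw [h1, Matrix.det_one]
    exact one_ne_zero
  · by_cases h : Sp G v s t
    · right
      have htz : s < (t.2.2 : ℕ) := by
        rcases lt_or_eq_of_le h.2.2 with h1 | h1
        · exact h1
        · exact absurd (sp_ext G v s h (sp_zi G v s hs) h1.symm) ht
      have hcn : (t.2.2 : ℕ) < G.n v := sp_lt G v s h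
      let Jt : Fin (s + 1) ↪o Fin (G.n v) := OrderEmbedding.ofStrictMono
        (fun j => ⟨Jc s (t.2.2 : ℕ) j, Jc_lt G v s hs _ hcn j⟩)
        (fun i j hij => Jc_mono s _ htz.le hij)
      refine ⟨(v, ⟨s, hs⟩), rfl, Pi.single (show G.MI (v, ⟨s, hs⟩) from Jt) 1, ?_⟩
      rw [Finset.sum_eq_single (show G.MI (v, ⟨s, hs⟩) from Jt)]
      · rw [Pi.single_eq_same, one_smul]
        change MvPolynomial.aeval (xi G v s lam hs) (G.gen (v, ⟨s, hs⟩) _)
          = MvPolynomial.aeval (xi G v s lam hs) (G.gen (v, ⟨s, hs⟩) (J0 G (v, ⟨s, hs⟩))) * X t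
        rw [hzU, aeval_gen]
        have h1 := MM_Jc G v s lam hs hl (t.2.2 : ℕ) hcn
        have h3 : wS G v s (t.2.2 : ℕ) = X t := by
          rw [wS_other G v s hs htz hcn]
          congr 1
          exact sp_ext G v s ⟨rfl, rfl, htz.le⟩ h rfl
        rw [h3, ← mul_assoc] at h1
        exact h1
      · intro j _ hj
        rw [Pi.single_eq_of_ne hj, zero_smul]
      · intro h'
        exact absurd (Finset.mem_univ _) h'
    · left
      refine ⟨MvPolynomial.X t - MvPolynomial.C (bs G v s lam t), ?_⟩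
      rw [map_sub, MvPolynomial.aeval_X, MvPolynomial.aeval_C]
      change xi G v s lam hs t - C _ = X t
      rw [xi_other G v s lam hs t h, sx, add_sub_cancel_left]

end Minors

end Pool.Agent.Run7.h827.MT
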